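import Pool.Agent.Q53.DP.Surf

set_option autoImplicit false

namespace Q53.DP

open MvPolynomial Finset

universe u
variable {K : Type u} [Field K]

/-- the quartic polynomial whose roots give eight of the ten curves -/
noncomputable def quart (h : K) : Polynomial K :=
  Polynomial.C 3 * Polynomial.X ^ 4 + Polynomial.C 12 * Polynomial.X ^ 3 -
    Polynomial.C (6 * h) * Polynomial.X ^ 2 + Polynomial.C 12 * Polynomial.X +
    Polynomial.C (12 - h ^ 2)

theorem natDegree_quart (h : K) (h3 : (3 : K) ≠ 0) : (quart h).natDegree = 4 := by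
  unfold quart
  compute_degree!

theorem eval_quart (h t : K) : (quart h).eval t = 3 * t ^ 4 + 12 * t ^ 3 - 6 * h * t ^ 2 + 12 * t +
    (12 - h ^ 2) := by
  simp [quart]

theorem eval_quart' (h t : K) : (Polynomial.derivative (quart h)).eval t =
    12 * (t ^ 3 + 3 * t ^ 2 - h * t + 1) := by
  simp only [quart, Polynomial.derivative_add, Polynomial.derivative_sub,
    Polynomial.derivative_C_mul, Polynomial.derivative_X_pow, Polynomial.derivative_X,
    Polynomial.derivative_C, Polynomial.eval_add, Polynomial.eval_sub, Polynomial.eval_mul,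
    Polynomial.eval_C, Polynomial.eval_pow, Polynomial.eval_X, Polynomial.eval_one,
    Polynomial.eval_zero]
  push_cast
  ring

theorem quart_roots_nodup (h : K) (h2 : (2 : K) ≠ 0) (h3 : (3 : K) ≠ 0) (e1 : h + 3 ≠ 0)
    (e2 : 4 * h - 15 ≠ 0) : (quart h).roots.Nodup := by
  classical
  have hne : quart h ≠ 0 := by
    intro h0
    have := natDegree_quart h h3
    rw [h0] at this
    simp at this
  rw [Multiset.nodup_iff_count_le_one]
  intro t
  rw [Polynomial.count_roots]
  by_contra hc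
  push Not at hc
  obtain ⟨r1, r2⟩ := (Polynomial.one_lt_rootMultiplicity_iff_isRoot hne).1 hc
  rw [Polynomial.IsRoot, eval_quart] at r1
  rw [Polynomial.IsRoot, eval_quart'] at r2
  have h12 : (12 : K) ≠ 0 := by
    have : (12 : K) = 2 * 2 * 3 := by norm_num
    rw [this]
    exact mul_ne_zero (mul_ne_zero h2 h2) h3
  have r3 := (mul_eq_zero.1 r2).resolve_left h12
  have r4 : (h + 3) * (3 * t ^ 2 - 3 * t + h - 3) = 0 := by
    linear_combination (3 * t + 3) * r3 - r1
  have r5 := (mul_eq_zero.1 r4).resolve_left e1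
  have r6 : (t + 1) * (2 * t - 1) ^ 2 = 0 := by
    linear_combination r3 + t * r5
  rcases mul_eq_zero.1 r6 with r7 | r7
  · apply e1
    linear_combination r5 + (6 - 3 * t) * r7
  · have r8 : 2 * t - 1 = 0 := pow_eq_zero_iff (by norm_num) |>.1 r7
    apply e2
    linear_combination 4 * r5 + (3 - 6 * t) * r8

theorem quart_card (h : K) [IsAlgClosed K] (h2 : (2 : K) ≠ 0) (h3 : (3 : K) ≠ 0) (e1 : h + 3 ≠ 0)
    (e2 : 4 * h - 15 ≠ 0) :
    ∃ R : Finset K, R.card = 4 ∧ ∀ t, t ∈ R ↔ 3 * t ^ 4 + 12 * t ^ 3 - 6 * h * t ^ 2 + 12 * t +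
      (12 - h ^ 2) = 0 := by
  classical
  have hne : quart h ≠ 0 := by
    intro h0
    have := natDegree_quart h h3
    rw [h0] at this
    simp at this
  refine ⟨(quart h).roots.toFinset, ?_, ?_⟩
  · rw [Multiset.toFinset_card_of_nodup (quart_roots_nodup h h2 h3 e1 e2)]
    rw [← natDegree_quart h h3]
    exact (Polynomial.splits_iff_card_roots.1 (IsAlgClosed.splits (quart h)))
  · intro t
    rw [Multiset.mem_toFinset, Polynomial.mem_roots hne, Polynomial.IsRoot, eval_quart]

/-- the pairs `(t, r)` with `t` a root of the quartic and `r² = 3 t + 3` -/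
def setA (h : K) : Set (K × K) :=
  {x | 3 * x.1 ^ 4 + 12 * x.1 ^ 3 - 6 * h * x.1 ^ 2 + 12 * x.1 + (12 - h ^ 2) = 0 ∧
    x.2 ^ 2 = 3 * x.1 + 3}

theorem setA_ne (h : K) (e1 : h + 3 ≠ 0) (x : K × K) (hx : x ∈ setA h) : x.2 ≠ 0 := by
  intro h0
  obtain ⟨a1, a2⟩ := hx
  rw [h0] at a2
  have a3 : (h + 3) ^ 2 = 0 := by
    linear_combination (-1 : K) * a1 - (x.1 ^ 3 + 3 * x.1 ^ 2 - (3 + 2 * h) * x.1 + (2 * h + 7)) * a2
  exact e1 (pow_eq_zero_iff (by norm_num) |>.1 a3)

theorem setA_card (h : K) [IsAlgClosed K] (h2 : (2 : K) ≠ 0) (h3 : (3 : K) ≠ 0) (e1 : h + 3 ≠ 0)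
    (e2 : 4 * h - 15 ≠ 0) : (setA h).encard = 8 := by
  classical
  obtain ⟨R, hR, hR'⟩ := quart_card h h2 h3 e1 e2
  have hs : ∀ a : K, ∃ s : K, s ^ 2 = a := fun a => IsAlgClosed.exists_pow_nat_eq a (by norm_num)
  choose s hs using hs
  have h11 : (1 : K) ≠ -1 := by
    intro h
    apply h2
    linear_combination h
  have himg : setA h = ((R ×ˢ ({1, -1} : Finset K)).image
      (fun x : K × K => (x.1, x.2 * s (3 * x.1 + 3))) : Finset (K × K)) := by
    ext ⟨t, r⟩
    simp only [setA, Set.mem_ofPred_eq, Finset.coe_image, Set.mem_image, Finset.mem_coe,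
      Finset.mem_product, Finset.mem_insert, Finset.mem_singleton, Prod.exists, Prod.mk.injEq]
    constructor
    · rintro ⟨a1, a2⟩
      have a3 : (r - s (3 * t + 3)) * (r + s (3 * t + 3)) = 0 := by
        linear_combination a2 - hs (3 * t + 3)
      rcases mul_eq_zero.1 a3 with a4 | a4
      · exact ⟨t, 1, ⟨(hR' t).2 a1, Or.inl rfl⟩, rfl, by linear_combination -a4⟩
      · exact ⟨t, -1, ⟨(hR' t).2 a1, Or.inr rfl⟩, rfl, by linear_combination -a4⟩
    · rintro ⟨t', e, ⟨b1, b2⟩, rfl, b3⟩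
      refine ⟨(hR' t').1 b1, ?_⟩
      have b4 : e ^ 2 = 1 := by
        rcases b2 with rfl | rfl
        · ring
        · ring
      rw [← b3]
      linear_combination (s (3 * t' + 3)) ^ 2 * b4 + hs (3 * t' + 3)
  rw [himg, Set.encard_coe_eq_coe_finsetCard, Finset.card_image_of_injOn]
  · rw [Finset.card_product, hR, Finset.card_pair h11]
    norm_num
  · rintro ⟨t, e⟩ hx ⟨t', e'⟩ hx' heq
    simp only [Finset.coe_product, Set.mem_prod, Finset.mem_coe] at hx hx'
    simp only [Prod.mk.injEq] at heq ⊢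
    obtain ⟨rfl, h5⟩ := heq
    refine ⟨rfl, ?_⟩
    have h6 : s (3 * t + 3) ≠ 0 := by
      have := setA_ne h e1 (t, s (3 * t + 3)) ⟨(hR' t).1 hx.1, hs _⟩
      exact this
    exact mul_right_cancel₀ h6 h5

end Q53.DP
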