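import Pool.Agent.Q53.DP.Count

set_option autoImplicit false

namespace Q53.DP

open MvPolynomial Finset

universe u
variable {K : Type u} [Field K]

theorem coeffs_eq (a b c b' c' d' h : K)
    (H : (C b' * X 0 ^ 2 * X 1 + C c' * X 0 * X 1 ^ 2 + C d' * X 1 ^ 3 :
      MvPolynomial (Fin 2) K) ^ 2 = (C a * X 0 ^ 2 + C b * X 0 * X 1 + C c * X 1 ^ 2) ^ 3 +
        sext h) :
    a ^ 3 = 1 ∧ 3 * a ^ 2 * b = 0 ∧ b' ^ 2 = 3 * a ^ 2 * c + 3 * a * b ^ 2 + 3 ∧
      2 * b' * c' = 6 * a * b * c + b ^ 3 ∧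
      c' ^ 2 + 2 * b' * d' = 3 * a * c ^ 2 + 3 * b ^ 2 * c + h ∧ 2 * c' * d' = 3 * b * c ^ 2 ∧
      d' ^ 2 = c ^ 3 + 1 := by
  have H1 := congrArg (aeval ![(1 : Polynomial K), Polynomial.X]) H
  simp only [sext, map_pow, map_add, map_mul, map_neg, aeval_X, aeval_C,
    Matrix.cons_val_zero, Matrix.cons_val_one,
    Polynomial.algebraMap_eq] at H1
  have H2 : ∀ k, Polynomial.coeff (Polynomial.C (a ^ 3 - 1) +
      Polynomial.C (3 * a ^ 2 * b) * Polynomial.X ^ 1 +
      Polynomial.C (3 * a ^ 2 * c + 3 * a * b ^ 2 + 3 - b' ^ 2) * Polynomial.X ^ 2 +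
      Polynomial.C (6 * a * b * c + b ^ 3 - 2 * b' * c') * Polynomial.X ^ 3 +
      Polynomial.C (3 * a * c ^ 2 + 3 * b ^ 2 * c + h - (c' ^ 2 + 2 * b' * d')) *
        Polynomial.X ^ 4 +
      Polynomial.C (3 * b * c ^ 2 - 2 * c' * d') * Polynomial.X ^ 5 +
      Polynomial.C (c ^ 3 + 1 - d' ^ 2) * Polynomial.X ^ 6) k = 0 := by
    intro k
    have H3 : (Polynomial.C (a ^ 3 - 1) +
      Polynomial.C (3 * a ^ 2 * b) * Polynomial.X ^ 1 +
      Polynomial.C (3 * a ^ 2 * c + 3 * a * b ^ 2 + 3 - b' ^ 2) * Polynomial.X ^ 2 +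
      Polynomial.C (6 * a * b * c + b ^ 3 - 2 * b' * c') * Polynomial.X ^ 3 +
      Polynomial.C (3 * a * c ^ 2 + 3 * b ^ 2 * c + h - (c' ^ 2 + 2 * b' * d')) *
        Polynomial.X ^ 4 +
      Polynomial.C (3 * b * c ^ 2 - 2 * c' * d') * Polynomial.X ^ 5 +
      Polynomial.C (c ^ 3 + 1 - d' ^ 2) * Polynomial.X ^ 6 : Polynomial K) = 0 := by
      simp only [map_add, map_sub, map_mul, map_pow, map_one,
        show (Polynomial.C (2 : K)) = 2 from rfl, show (Polynomial.C (3 : K)) = 3 from rfl,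
        show (Polynomial.C (6 : K)) = 6 from rfl] at H1 ⊢
      linear_combination (-1 : Polynomial K) * H1
    rw [H3, Polynomial.coeff_zero]
  have g0 := H2 0
  have g1 := H2 1
  have g2 := H2 2
  have g3 := H2 3
  have g4 := H2 4
  have g5 := H2 5
  have g6 := H2 6
  simp only [Polynomial.coeff_add, Polynomial.coeff_C_mul, Polynomial.coeff_X_pow,
    Polynomial.coeff_C] at g0 g1 g2 g3 g4 g5 g6
  norm_num at g0 g1 g2 g3 g4 g5 g6
  refine ⟨by linear_combination g0, ?_, by linear_combination -g2, by linear_combination -g3,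
    by linear_combination -g4, by linear_combination -g5, by linear_combination -g6⟩
  rcases g1 with (g1 | g1) | g1
  · rw [g1]
    ring
  · rw [g1]
    ring
  · rw [g1]
    ring

/-- the eight curves through `(1 : 0 : a : 0)` given by the elements of `setA h` -/
noncomputable def curveA (a h : K) (x : K × K) :
    MvPolynomial (Fin 2) K × MvPolynomial (Fin 2) K :=
  (C a * X 0 ^ 2 + C (a * x.1) * X 1 ^ 2,
    C x.2 * X 0 ^ 2 * X 1 + C ((3 * x.1 ^ 2 + h) / (2 * x.2)) * X 1 ^ 3)

/-- the two further curves through `(1 : 0 : a : 0)` -/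
noncomputable def curveB (a : K) (s : K) : MvPolynomial (Fin 2) K × MvPolynomial (Fin 2) K :=
  (C a * X 0 ^ 2 + C (-a) * X 1 ^ 2, C s * X 0 * X 1 ^ 2)

theorem isExc_surf (h : K) (E : MvPolynomial (Fin 2) K × MvPolynomial (Fin 2) K) :
    (surf h).IsExceptional E ↔ E.1.IsHomogeneous 2 ∧ E.2.IsHomogeneous 3 ∧
      E.2 ^ 2 = E.1 ^ 3 + sext h := by
  simp [Sextic.IsExceptional, surf]

theorem hom_A (a h : K) (x : K × K) : (curveA a h x).1.IsHomogeneous 2 ∧
    (curveA a h x).2.IsHomogeneous 3 := by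
  constructor
  · exact (isHomogeneous_C_mul_X_pow a (0 : Fin 2) 2).add
      (isHomogeneous_C_mul_X_pow _ (1 : Fin 2) 2)
  · exact ((isHomogeneous_C_mul_X_pow _ (0 : Fin 2) 2).mul (isHomogeneous_X K (1 : Fin 2))).add
      (isHomogeneous_C_mul_X_pow _ (1 : Fin 2) 3)

theorem hom_B (a s : K) : (curveB a s).1.IsHomogeneous 2 ∧
    (curveB a s).2.IsHomogeneous 3 := by
  constructor
  · exact (isHomogeneous_C_mul_X_pow a (0 : Fin 2) 2).add
      (isHomogeneous_C_mul_X_pow _ (1 : Fin 2) 2)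
  · exact ((isHomogeneous_C_mul_X s (0 : Fin 2)).mul (isHomogeneous_X_pow (R := K) (1 : Fin 2) 2))

theorem curves_eq (h a : K) (h2 : (2 : K) ≠ 0) (h3 : (3 : K) ≠ 0) (e1 : h + 3 ≠ 0)
    (ha : a ^ 3 = 1) :
    {E | (surf h).IsExceptional E ∧ LiesOn ![1, 0, a, 0] E} =
      curveA a h '' setA h ∪ curveB a '' {s | s ^ 2 = h + 3} := by
  have ha0 : a ≠ 0 := by
    rintro rfl
    norm_num at ha
  ext ⟨p, q⟩
  rw [Set.mem_ofPred_eq, isExc_surf]
  constructor
  · rintro ⟨⟨hp, hq, hE⟩, hl⟩
    obtain ⟨a0, b, c, rfl⟩ := form_two p hp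
    obtain ⟨a', b', c', d', rfl⟩ := form_three q hq
    simp [LiesOn] at hl
    obtain ⟨l1, l2⟩ := hl
    subst l1
    subst l2
    have hE' := coeffs_eq a b c b' c' d' h (by
      simp only at hE
      rw [← hE]
      simp)
    obtain ⟨g0, g1, g2, g3, g4, g5, g6⟩ := hE'
    have hb : b = 0 := by
      rcases mul_eq_zero.1 g1 with g | g
      · exfalso
        rcases mul_eq_zero.1 g with g | g
        · exact h3 g
        · exact ha0 (pow_eq_zero_iff (by norm_num) |>.1 g)
      · exact g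
    subst hb
    by_cases hc : c' = 0
    · left
      subst hc
      have hb' : b' ≠ 0 := by
        rintro rfl
        apply e1
        have i1 : 3 * (a ^ 2 * c + 1) = 0 := by linear_combination -g2
        have i2 := (mul_eq_zero.1 i1).resolve_left h3
        linear_combination -g4 + 3 * (1 - a ^ 2 * c) * i2 + 3 * a * c ^ 2 * g0
      refine ⟨(a ^ 2 * c, b'), ⟨?_, ?_⟩, ?_⟩
      · simp only
        have j1 : (3 * (a ^ 2 * c) ^ 2 + h) ^ 2 =
            4 * (3 * (a ^ 2 * c) + 3) * ((a ^ 2 * c) ^ 3 + 1) := by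
          have k1 : (a ^ 2 * c) ^ 2 = a * c ^ 2 := by linear_combination a * c ^ 2 * g0
          have k2 : (a ^ 2 * c) ^ 3 = c ^ 3 := by
            linear_combination (a ^ 3 + 1) * c ^ 3 * g0
          rw [k1, k2]
          have k3 : 3 * (a * c ^ 2) + h = 2 * b' * d' := by linear_combination -g4
          have k4 : 3 * (a ^ 2 * c) + 3 = b' ^ 2 := by linear_combination -g2
          rw [k3, k4, ← g6]
          ring
        linear_combination -j1
      · simp only
        linear_combination g2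
      · simp only [curveA, Prod.mk.injEq]
        constructor
        · have k5 : a * (a ^ 2 * c) = c := by linear_combination c * g0
          rw [k5]
          simp
        · have k6 : (3 * (a ^ 2 * c) ^ 2 + h) / (2 * b') = d' := by
            rw [div_eq_iff (mul_ne_zero h2 hb')]
            linear_combination -g4 + 3 * a * c ^ 2 * g0
          rw [k6]
          simp
    · right
      have hb' : b' = 0 := by
        have i1 : 2 * (b' * c') = 0 := by linear_combination g3
        have i2 := (mul_eq_zero.1 i1).resolve_left h2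
        exact (mul_eq_zero.1 i2).resolve_right hc
      subst hb'
      have hd' : d' = 0 := by
        have i1 : 2 * (c' * d') = 0 := by linear_combination g5
        have i2 := (mul_eq_zero.1 i1).resolve_left h2
        exact (mul_eq_zero.1 i2).resolve_left hc
      subst hd'
      have hca : c = -a := by
        have i1 : 3 * (a ^ 2 * c + 1) = 0 := by linear_combination -g2
        have i2 := (mul_eq_zero.1 i1).resolve_left h3
        linear_combination a * i2 - c * g0
      subst hca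
      refine ⟨c', ?_, ?_⟩
      · rw [Set.mem_ofPred_eq]
        linear_combination g4 + 3 * g0
      · simp [curveB]
  · rintro (⟨⟨t, r⟩, ⟨m1, m2⟩, hx⟩ | ⟨s, hs, hx⟩)
    · have hr := setA_ne h e1 (t, r) ⟨m1, m2⟩
      simp only at m1 m2 hr
      rw [← hx]
      refine ⟨⟨(hom_A a h (t, r)).1, (hom_A a h (t, r)).2, ?_⟩, ?_⟩
      · simp only [curveA, sext]
        obtain ⟨e, he⟩ : ∃ e, e = (3 * t ^ 2 + h) / (2 * r) := ⟨_, rfl⟩
        rw [← he]
        have n1 : 2 * r * e = 3 * t ^ 2 + h := by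
          rw [he]
          field_simp
        have n2 : e ^ 2 = t ^ 3 + 1 := by
          have n3 : (2 * r) ^ 2 * (e ^ 2 - (t ^ 3 + 1)) = 0 := by
            linear_combination (2 * r * e + (3 * t ^ 2 + h)) * n1 - m1 -
              4 * (t ^ 3 + 1) * m2
          have n4 := (mul_eq_zero.1 n3).resolve_left (pow_ne_zero 2 (mul_ne_zero h2 hr))
          linear_combination n4
        have q1 := congrArg (C (σ := Fin 2)) n1
        have q2 := congrArg (C (σ := Fin 2)) n2
        have q3 := congrArg (C (σ := Fin 2)) m2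
        have q4 := congrArg (C (σ := Fin 2)) ha
        simp only [map_add, map_mul, map_pow, map_one] at q1 q2 q3 q4 ⊢
        have q5 : (C (3 : K) : MvPolynomial (Fin 2) K) = 3 := rfl
        have q6 : (C (2 : K) : MvPolynomial (Fin 2) K) = 2 := rfl
        rw [q5] at q1 q3 ⊢
        rw [q6] at q1
        linear_combination X 0 ^ 4 * X 1 ^ 2 * q3 + X 0 ^ 2 * X 1 ^ 4 * q1 + X 1 ^ 6 * q2 -
          (X 0 ^ 2 + C t * X 1 ^ 2) ^ 3 * q4
      · simp [LiesOn, curveA]
    · rw [Set.mem_ofPred_eq] at hs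
      rw [← hx]
      refine ⟨⟨(hom_B a s).1, (hom_B a s).2, ?_⟩, ?_⟩
      · simp only [curveB, sext]
        have q1 := congrArg (C (σ := Fin 2)) hs
        have q4 := congrArg (C (σ := Fin 2)) ha
        simp only [map_add, map_pow, map_one, map_neg] at q1 q4 ⊢
        have q5 : (C (3 : K) : MvPolynomial (Fin 2) K) = 3 := rfl
        rw [q5] at q1 ⊢
        linear_combination X 0 ^ 2 * X 1 ^ 4 * q1 - (X 0 ^ 2 - X 1 ^ 2) ^ 3 * q4
      · simp [LiesOn, curveB]

end Q53.DP
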