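import Mathlib

/-!
# Del Pezzo surfaces of degree one as sextics in `P(1,1,2,3)`

Over an algebraically closed field `K` the del Pezzo surfaces of degree one are the smooth surfaces
`y² + a₁ x y + a₃ y = x³ + a₂ x² + a₄ x + a₆` in the weighted projective space `P(1,1,2,3)` with
coordinates `z, w, x, y`, where `a_i` is a binary form of degree `i` in `z, w`. The exceptional
curves are exactly the curves `x = p(z, w)`, `y = q(z, w)` lying on the surface, where `p` and `q`
are binary forms of degree `2` and `3`.
-/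

set_option autoImplicit false

namespace Q53.DP

open MvPolynomial

universe u

/-- the coefficients of a surface `y² + a₁ x y + a₃ y = x³ + a₂ x² + a₄ x + a₆` in `P(1,1,2,3)`:
`a_i` is a binary form of degree `i` -/
structure Sextic (K : Type u) [Field K] where
  a₁ : MvPolynomial (Fin 2) K
  a₂ : MvPolynomial (Fin 2) K
  a₃ : MvPolynomial (Fin 2) K
  a₄ : MvPolynomial (Fin 2) K
  a₆ : MvPolynomial (Fin 2) K
  hom₁ : a₁.IsHomogeneous 1
  hom₂ : a₂.IsHomogeneous 2
  hom₃ : a₃.IsHomogeneous 3
  hom₄ : a₄.IsHomogeneous 4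
  hom₆ : a₆.IsHomogeneous 6

variable {K : Type u} [Field K]

/-- a binary form as a polynomial in the four variables `z, w, x, y` (numbered `0, 1, 2, 3`) -/
noncomputable def up (a : MvPolynomial (Fin 2) K) : MvPolynomial (Fin 4) K :=
  rename ![0, 1] a

/-- the equation of the surface: a polynomial in `z, w, x, y` (numbered `0, 1, 2, 3`), weighted
homogeneous of degree `6` for the weights `1, 1, 2, 3` -/
noncomputable def Sextic.eqn (S : Sextic K) : MvPolynomial (Fin 4) K :=
  X 3 ^ 2 + up S.a₁ * X 2 * X 3 + up S.a₃ * X 3 -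
    (X 2 ^ 3 + up S.a₂ * X 2 ^ 2 + up S.a₄ * X 2 + up S.a₆)

/-- `v = (z, w, x, y)` are weighted homogeneous coordinates of a point of the surface -/
def Sextic.IsPoint (S : Sextic K) (v : Fin 4 → K) : Prop :=
  v ≠ 0 ∧ eval v S.eqn = 0

/-- the surface is smooth: the partial derivatives of the equation do not vanish simultaneously at a
point of the surface -/
def Sextic.IsSmooth (S : Sextic K) : Prop :=
  ∀ v : Fin 4 → K, S.IsPoint v → ∃ i, eval v (pderiv i S.eqn) ≠ 0

/-- the vectors `u` and `v` represent the same point of `P(1,1,2,3)` -/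
def SamePoint (u v : Fin 4 → K) : Prop :=
  ∃ t : K, t ≠ 0 ∧ v = ![t * u 0, t * u 1, t ^ 2 * u 2, t ^ 3 * u 3]

/-- the exceptional curves: pairs of binary forms `E = (p, q)` of degree `2` and `3` such that the
curve `x = p(z, w)`, `y = q(z, w)` lies on the surface -/
def Sextic.IsExceptional (S : Sextic K) (E : MvPolynomial (Fin 2) K × MvPolynomial (Fin 2) K) :
    Prop :=
  E.1.IsHomogeneous 2 ∧ E.2.IsHomogeneous 3 ∧
    E.2 ^ 2 + S.a₁ * E.1 * E.2 + S.a₃ * E.2 = E.1 ^ 3 + S.a₂ * E.1 ^ 2 + S.a₄ * E.1 + S.a₆

/-- the point `v = (z, w, x, y)` lies on the curve `E = (p, q)`: `x = p(z, w)` and `y = q(z, w)` -/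
def LiesOn (v : Fin 4 → K) (E : MvPolynomial (Fin 2) K × MvPolynomial (Fin 2) K) : Prop :=
  v 2 = eval ![v 0, v 1] E.1 ∧ v 3 = eval ![v 0, v 1] E.2

variable (K) in
open Classical in
/-- the number of exceptional curves through a generalized Eckardt point: `16` in characteristic
`2`, `12` in characteristic `3` and `10` otherwise -/
noncomputable def eckardtNumber : ℕ :=
  if (2 : K) = 0 then 16 else if (3 : K) = 0 then 12 else 10

/-- `v` is a generalized Eckardt point: a point of the surface on exactly `eckardtNumber K`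
exceptional curves -/
def Sextic.IsGeneralizedEckardt (S : Sextic K) (v : Fin 4 → K) : Prop :=
  S.IsPoint v ∧ {E | S.IsExceptional E ∧ LiesOn v E}.encard = eckardtNumber K

end Q53.DP
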