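import Pool.Agent.Q53.DP.Curves

set_option autoImplicit false

namespace Q53.DP

open MvPolynomial Finset

universe u
variable {K : Type u} [Field K]

theorem curveA_inj (a h : K) (ha : a ≠ 0) : Function.Injective (curveA a h) := by
  rintro ⟨t, r⟩ ⟨t', r'⟩ heq
  have h1 := congrArg (fun E => eval ![(0 : K), 1] E.1) heq
  have h2 := congrArg (fun E => eval ![(0 : K), 1] E.2) heq
  have h3 := congrArg (fun E => eval ![(1 : K), 1] E.2) heq
  simp [curveA] at h1 h2 h3
  have h4 : t = t' := h1.resolve_right ha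
  have h5 : r = r' := by linear_combination h3 - h2
  rw [h4, h5]

theorem curveB_inj (a : K) : Function.Injective (curveB a) := by
  intro s s' heq
  have h3 := congrArg (fun E => eval ![(1 : K), 1] E.2) heq
  simpa [curveB] using h3

theorem curve_disj (h a : K) (h2 : (2 : K) ≠ 0) (e1 : h + 3 ≠ 0) :
    Disjoint (curveA a h '' setA h) (curveB a '' {s | s ^ 2 = h + 3}) := by
  rw [Set.disjoint_left]
  rintro E ⟨⟨t, r⟩, hx, rfl⟩ ⟨s, hs, heq⟩
  have hr := setA_ne h e1 (t, r) hx
  apply hr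
  have g1 := congrArg (fun E => eval ![(0 : K), 1] E.2) heq
  have g2 := congrArg (fun E => eval ![(1 : K), 1] E.2) heq
  have g3 := congrArg (fun E => eval ![(1 : K), -1] E.2) heq
  simp [curveA, curveB] at g1 g2 g3
  have g4 : 2 * s = 0 := by
    linear_combination g2 + g3
  have g5 := (mul_eq_zero.1 g4).resolve_left h2
  change r = 0
  rw [g5] at g2
  linear_combination g1 - g2

theorem sq_card (b : K) [IsAlgClosed K] (h2 : (2 : K) ≠ 0) (hb : b ≠ 0) :
    {s : K | s ^ 2 = b}.encard = 2 := by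
  obtain ⟨s, hs⟩ := IsAlgClosed.exists_pow_nat_eq b (n := 2) (by norm_num)
  have hs0 : s ≠ 0 := by
    rintro rfl
    apply hb
    rw [← hs]
    norm_num
  have : {s : K | s ^ 2 = b} = {s, -s} := by
    ext x
    simp only [Set.mem_ofPred_eq, Set.mem_insert_iff, Set.mem_singleton_iff]
    rw [← hs, sq_eq_sq_iff_eq_or_eq_neg]
  rw [this, Set.encard_pair]
  intro h
  apply hs0
  have h4 : 2 * s = 0 := by linear_combination h
  exact (mul_eq_zero.1 h4).resolve_left h2

theorem count (h a : K) [IsAlgClosed K] (h2 : (2 : K) ≠ 0) (h3 : (3 : K) ≠ 0) (e1 : h + 3 ≠ 0)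
    (e2 : 4 * h - 15 ≠ 0) (ha : a ^ 3 = 1) :
    {E | (surf h).IsExceptional E ∧ LiesOn ![1, 0, a, 0] E}.encard = 10 := by
  have ha0 : a ≠ 0 := by
    rintro rfl
    norm_num at ha
  rw [curves_eq h a h2 h3 e1 ha, Set.encard_union_eq (curve_disj h a h2 e1),
    (curveA_inj a h ha0).encard_image, (curveB_inj a).encard_image, setA_card h h2 h3 e1 e2,
    sq_card _ h2 e1]
  norm_num

theorem isPoint_surf (h : K) (v : Fin 4 → K) (hv : v ≠ 0)
    (he : v 3 ^ 2 = v 2 ^ 3 + (-v 0 ^ 6 + 3 * v 0 ^ 4 * v 1 ^ 2 + h * v 0 ^ 2 * v 1 ^ 4 + v 1 ^ 6)) :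
    (surf h).IsPoint v := by
  refine ⟨hv, ?_⟩
  rw [eqn_surf]
  simp only [map_sub, map_add, map_mul, map_pow, map_neg, eval_X, eval_C]
  linear_combination he

theorem eck_one (h a : K) [IsAlgClosed K] (h2 : (2 : K) ≠ 0) (h3 : (3 : K) ≠ 0) (e1 : h + 3 ≠ 0)
    (e2 : 4 * h - 15 ≠ 0) (ha : a ^ 3 = 1) : (surf h).IsGeneralizedEckardt ![1, 0, a, 0] := by
  refine ⟨isPoint_surf h _ ?_ ?_, ?_⟩
  · intro h0
    have := congrFun h0 0
    simp at this
  · simp
    linear_combination -ha
  · rw [count h a h2 h3 e1 e2 ha]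
    simp [eckardtNumber, h2, h3]

/-! ### the automorphism exchanging the two fibres -/

/-- the substitution `z ↦ ω w`, `w ↦ z` -/
noncomputable def tau (o : K) : MvPolynomial (Fin 2) K →ₐ[K] MvPolynomial (Fin 2) K :=
  aeval ![C o * X 1, X 0]

/-- the inverse substitution `z ↦ w`, `w ↦ ω⁻¹ z` -/
noncomputable def tau' (o : K) : MvPolynomial (Fin 2) K →ₐ[K] MvPolynomial (Fin 2) K :=
  aeval ![X 1, C o⁻¹ * X 0]

theorem tau'_tau (o : K) (ho : o ≠ 0) (p : MvPolynomial (Fin 2) K) : tau' o (tau o p) = p := by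
  have : (tau' o).comp (tau o) = AlgHom.id K _ := by
    apply MvPolynomial.algHom_ext
    intro i
    fin_cases i
    · simp [tau, tau', ← mul_assoc, ← C_mul, mul_inv_cancel₀ ho]
    · simp [tau, tau']
  exact congrArg (fun f => f p) this

theorem tau_tau' (o : K) (ho : o ≠ 0) (p : MvPolynomial (Fin 2) K) : tau o (tau' o p) = p := by
  have : (tau o).comp (tau' o) = AlgHom.id K _ := by
    apply MvPolynomial.algHom_ext
    intro i
    fin_cases i
    · simp [tau, tau']
    · simp [tau, tau', ← mul_assoc, ← C_mul, inv_mul_cancel₀ ho]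
  exact congrArg (fun f => f p) this

theorem tau_hom (o : K) (n : ℕ) (p : MvPolynomial (Fin 2) K) (hp : p.IsHomogeneous n) :
    (tau o p).IsHomogeneous n := by
  have := hp.aeval (n := 1) (![C o * X 1, X 0] : Fin 2 → MvPolynomial (Fin 2) K)
    (Fin.forall_fin_two.2 ⟨isHomogeneous_C_mul_X o (1 : Fin 2), isHomogeneous_X K (0 : Fin 2)⟩)
  rwa [one_mul] at this

theorem tau'_hom (o : K) (n : ℕ) (p : MvPolynomial (Fin 2) K) (hp : p.IsHomogeneous n) :
    (tau' o p).IsHomogeneous n := by
  have := hp.aeval (n := 1) (![X 1, C o⁻¹ * X 0] : Fin 2 → MvPolynomial (Fin 2) K)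
    (Fin.forall_fin_two.2 ⟨isHomogeneous_X K (1 : Fin 2), isHomogeneous_C_mul_X o⁻¹ (0 : Fin 2)⟩)
  rwa [one_mul] at this

theorem tau_sext (o : K) (ho : o ^ 2 + o + 1 = 0) : tau o (sext (-3 * o)) = - sext (-3 * o) := by
  have ho3 : o ^ 3 = 1 := by linear_combination (o - 1) * ho
  have q1 := congrArg (C (σ := Fin 2)) ho3
  simp only [map_pow, map_one] at q1
  simp only [tau, sext, map_add, map_neg, map_mul, map_pow, aeval_X, aeval_C,
    Matrix.cons_val_zero, Matrix.cons_val_one, algebraMap_eq]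
  have q5 : (C (3 : K) : MvPolynomial (Fin 2) K) = 3 := rfl
  rw [q5]
  linear_combination (-(C o ^ 3 + 1) * X 1 ^ 6 + 3 * C o * X 1 ^ 4 * X 0 ^ 2 -
    3 * X 1 ^ 2 * X 0 ^ 4) * q1

theorem tau'_sext (o : K) (ho : o ^ 2 + o + 1 = 0) (ho0 : o ≠ 0) :
    tau' o (sext (-3 * o)) = - sext (-3 * o) := by
  have h1 := tau_sext o ho
  have h2 := congrArg (tau' o) h1
  rw [tau'_tau o ho0, map_neg] at h2
  linear_combination h2

theorem eval_tau (o : K) (r : MvPolynomial (Fin 2) K) :
    eval ![1, 0] (tau o r) = eval ![0, 1] r := by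
  have : (aeval ![(1 : K), 0]).comp (tau o) = aeval (R := K) ![(0 : K), 1] := by
    apply MvPolynomial.algHom_ext
    intro i
    fin_cases i
    · simp [tau]
    · simp [tau]
  exact congrArg (fun f => f r) this

theorem eval_tau' (o : K) (r : MvPolynomial (Fin 2) K) :
    eval ![0, 1] (tau' o r) = eval ![1, 0] r := by
  have : (aeval ![(0 : K), 1]).comp (tau' o) = aeval (R := K) ![(1 : K), 0] := by
    apply MvPolynomial.algHom_ext
    intro i
    fin_cases i
    · simp [tau']
    · simp [tau']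
  exact congrArg (fun f => f r) this

theorem count_two (o a i : K) [IsAlgClosed K] (h2 : (2 : K) ≠ 0) (h3 : (3 : K) ≠ 0)
    (ho : o ^ 2 + o + 1 = 0) (hi : i ^ 2 = -1)
    (e2 : 4 * (-3 * o) - 15 ≠ 0) (ha : a ^ 3 = 1) :
    {E | (surf (-3 * o)).IsExceptional E ∧ LiesOn ![0, 1, -a, 0] E}.encard = 10 := by
  have ho0 : o ≠ 0 := by
    rintro rfl
    norm_num at ho
  have e1 : -3 * o + 3 ≠ 0 := by
    intro h
    have h4 : 3 * (1 - o) = 0 := by linear_combination h
    have h5 := (mul_eq_zero.1 h4).resolve_left h3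
    apply h3
    linear_combination ho + (o + 2) * h5
  have hi0 : i ≠ 0 := by
    rintro rfl
    norm_num at hi
  rw [← count (-3 * o) a h2 h3 e1 e2 ha]
  have ci := congrArg (C (σ := Fin 2)) hi
  simp only [map_pow, map_neg, map_one] at ci
  apply le_antisymm
  · refine Set.encard_le_encard_of_injOn (f := fun E => (-(tau o E.1), C i * tau o E.2)) ?_ ?_
    · rintro ⟨p, q⟩ ⟨hE, hl⟩
      rw [isExc_surf] at hE
      obtain ⟨hp, hq, hE⟩ := hE
      simp only at hp hq hE
      refine ⟨?_, ?_⟩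
      · rw [isExc_surf]
        refine ⟨(tau_hom o 2 p hp).neg, ?_, ?_⟩
        · have := (isHomogeneous_C (Fin 2) i).mul (tau_hom o 3 q hq)
          rwa [zero_add] at this
        · have h6 := congrArg (tau o) hE
          rw [map_pow, map_add, map_pow, tau_sext o ho] at h6
          simp only
          linear_combination (tau o q) ^ 2 * ci - h6
      · obtain ⟨l1, l2⟩ := hl
        simp at l1 l2
        have hev : ∀ r : MvPolynomial (Fin 2) K, eval ![1, 0] (tau o r) = eval ![0, 1] r := by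
          intro r
          exact eval_tau o r
        constructor
        · simp [hev, ← l1]
        · simp [hev, ← l2]
    · rintro ⟨p, q⟩ - ⟨p', q'⟩ - heq
      simp only [Prod.mk.injEq, neg_inj] at heq
      obtain ⟨h6, h7⟩ := heq
      have h8 := congrArg (tau' o) h6
      rw [tau'_tau o ho0, tau'_tau o ho0] at h8
      have h9 : tau o q = tau o q' := by
        have : (C i : MvPolynomial (Fin 2) K) ≠ 0 := by
          rw [Ne, C_eq_zero]
          exact hi0
        exact mul_left_cancel₀ this h7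
      have h10 := congrArg (tau' o) h9
      rw [tau'_tau o ho0, tau'_tau o ho0] at h10
      rw [h8, h10]
  · refine Set.encard_le_encard_of_injOn (f := fun E => (-(tau' o E.1), C i * tau' o E.2)) ?_ ?_
    · rintro ⟨p, q⟩ ⟨hE, hl⟩
      rw [isExc_surf] at hE
      obtain ⟨hp, hq, hE⟩ := hE
      simp only at hp hq hE
      refine ⟨?_, ?_⟩
      · rw [isExc_surf]
        refine ⟨(tau'_hom o 2 p hp).neg, ?_, ?_⟩
        · have := (isHomogeneous_C (Fin 2) i).mul (tau'_hom o 3 q hq)
          rwa [zero_add] at this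
        · have h6 := congrArg (tau' o) hE
          rw [map_pow, map_add, map_pow, tau'_sext o ho ho0] at h6
          simp only
          linear_combination (tau' o q) ^ 2 * ci - h6
      · obtain ⟨l1, l2⟩ := hl
        simp at l1 l2
        have hev : ∀ r : MvPolynomial (Fin 2) K, eval ![0, 1] (tau' o r) = eval ![1, 0] r := by
          intro r
          exact eval_tau' o r
        constructor
        · simp [hev, ← l1]
        · simp [hev, ← l2]
    · rintro ⟨p, q⟩ - ⟨p', q'⟩ - heq
      simp only [Prod.mk.injEq, neg_inj] at heq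
      obtain ⟨h6, h7⟩ := heq
      have h8 := congrArg (tau o) h6
      rw [tau_tau' o ho0, tau_tau' o ho0] at h8
      have h9 : tau' o q = tau' o q' := by
        have : (C i : MvPolynomial (Fin 2) K) ≠ 0 := by
          rw [Ne, C_eq_zero]
          exact hi0
        exact mul_left_cancel₀ this h7
      have h10 := congrArg (tau o) h9
      rw [tau_tau' o ho0, tau_tau' o ho0] at h10
      rw [h8, h10]

theorem eck_two (o a i : K) [IsAlgClosed K] (h2 : (2 : K) ≠ 0) (h3 : (3 : K) ≠ 0)
    (ho : o ^ 2 + o + 1 = 0) (hi : i ^ 2 = -1)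
    (e2 : 4 * (-3 * o) - 15 ≠ 0) (ha : a ^ 3 = 1) :
    (surf (-3 * o)).IsGeneralizedEckardt ![0, 1, -a, 0] := by
  refine ⟨isPoint_surf _ _ ?_ ?_, ?_⟩
  · intro h0
    have := congrFun h0 1
    simp at this
  · simp
    linear_combination ha
  · rw [count_two o a i h2 h3 ho hi e2 ha]
    simp [eckardtNumber, h2, h3]

end Q53.DP
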