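import Pool.Agent.Q53.DP.Defs

set_option autoImplicit false

namespace Q53.DP

open MvPolynomial Finset

universe u
variable {K : Type u} [Field K]

/-- the exponent vector of `X 0 ^ a * X 1 ^ b` -/
noncomputable def mo (a b : ℕ) : Fin 2 →₀ ℕ := Finsupp.single 0 a + Finsupp.single 1 b

theorem mo_zero (a b : ℕ) : mo a b 0 = a := by simp [mo]
theorem mo_one (a b : ℕ) : mo a b 1 = b := by simp [mo]

theorem mo_ext (m : Fin 2 →₀ ℕ) : m = mo (m 0) (m 1) := by
  ext i
  fin_cases i
  · exact (mo_zero _ _).symm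
  · exact (mo_one _ _).symm

theorem monomial_mo (a b : ℕ) (c : K) :
    monomial (mo a b) c = C c * (X 0 ^ a * X 1 ^ b : MvPolynomial (Fin 2) K) := by
  rw [mo, ← mul_one c, ← C_mul_monomial]
  congr 1
  · rw [mul_one]
  · rw [X_pow_eq_monomial, X_pow_eq_monomial, monomial_mul, mul_one]

theorem form_eq (n : ℕ) (p : MvPolynomial (Fin 2) K) (hp : p.IsHomogeneous n) :
    p = ∑ i ∈ range (n + 1), C (p.coeff (mo (n - i) i)) * (X 0 ^ (n - i) * X 1 ^ i) := by
  classical
  ext m
  rw [coeff_sum]
  have e : ∀ i, coeff m (C (p.coeff (mo (n - i) i)) * (X 0 ^ (n - i) * X 1 ^ i :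
      MvPolynomial (Fin 2) K)) = if mo (n - i) i = m then p.coeff (mo (n - i) i) else 0 := by
    intro i
    rw [← monomial_mo, coeff_monomial]
  simp_rw [e]
  by_cases hm : m 0 + m 1 = n
  · rw [Finset.sum_eq_single (m 1)]
    · have h1 : mo (n - m 1) (m 1) = m := by
        rw [show n - m 1 = m 0 by omega]
        exact (mo_ext m).symm
      rw [if_pos h1, h1]
    · intro i _ hi
      rw [if_neg]
      intro h
      apply hi
      rw [← h, mo_one]
    · intro h
      exfalso
      apply h
      rw [mem_range]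
      omega
  · have h0 : coeff m p = 0 := by
      apply hp.coeff_eq_zero
      rw [Finsupp.degree_eq_sum]
      simpa [Fin.sum_univ_two] using hm
    rw [h0]
    symm
    apply Finset.sum_eq_zero
    intro i hi
    rw [if_neg]
    intro h
    apply hm
    rw [← h, mo_zero, mo_one]
    rw [mem_range] at hi
    omega

theorem form_two (p : MvPolynomial (Fin 2) K) (hp : p.IsHomogeneous 2) :
    ∃ a b c : K, p = C a * X 0 ^ 2 + C b * X 0 * X 1 + C c * X 1 ^ 2 := by
  refine ⟨p.coeff (mo 2 0), p.coeff (mo 1 1), p.coeff (mo 0 2), ?_⟩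
  have h := form_eq 2 p hp
  rw [Finset.sum_range_succ, Finset.sum_range_succ, Finset.sum_range_succ,
    Finset.sum_range_zero] at h
  refine h.trans ?_
  norm_num
  ring

theorem form_three (p : MvPolynomial (Fin 2) K) (hp : p.IsHomogeneous 3) :
    ∃ a b c d : K, p = C a * X 0 ^ 3 + C b * X 0 ^ 2 * X 1 + C c * X 0 * X 1 ^ 2 +
      C d * X 1 ^ 3 := by
  refine ⟨p.coeff (mo 3 0), p.coeff (mo 2 1), p.coeff (mo 1 2), p.coeff (mo 0 3), ?_⟩
  have h := form_eq 3 p hp
  rw [Finset.sum_range_succ, Finset.sum_range_succ, Finset.sum_range_succ, Finset.sum_range_succ,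
    Finset.sum_range_zero] at h
  refine h.trans ?_
  norm_num
  ring

end Q53.DP
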