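import Pool.Agent.Q53.DP.Forms

set_option autoImplicit false

namespace Q53.DP

open MvPolynomial Finset

universe u
variable {K : Type u} [Field K]

/-- the binary form `- z⁶ + 3 z⁴ w² + h z² w⁴ + w⁶` -/
noncomputable def sext (h : K) : MvPolynomial (Fin 2) K :=
  -X 0 ^ 6 + C 3 * X 0 ^ 4 * X 1 ^ 2 + C h * X 0 ^ 2 * X 1 ^ 4 + X 1 ^ 6

theorem sext_hom (h : K) : (sext h).IsHomogeneous 6 := by
  unfold sext
  refine IsHomogeneous.add (IsHomogeneous.add (IsHomogeneous.add ?_ ?_) ?_) ?_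
  · exact ((isHomogeneous_X_pow (R := K) (0 : Fin 2) 6)).neg
  · exact ((isHomogeneous_C_mul_X_pow (3 : K) (0 : Fin 2) 4).mul
      (isHomogeneous_X_pow (R := K) (1 : Fin 2) 2))
  · exact ((isHomogeneous_C_mul_X_pow (h : K) (0 : Fin 2) 2).mul
      (isHomogeneous_X_pow (R := K) (1 : Fin 2) 4))
  · exact (isHomogeneous_X_pow (R := K) (1 : Fin 2) 6)

/-- the surface `y² = x³ - z⁶ + 3 z⁴ w² + h z² w⁴ + w⁶` -/
noncomputable def surf (h : K) : Sextic K where
  a₁ := 0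
  a₂ := 0
  a₃ := 0
  a₄ := 0
  a₆ := sext h
  hom₁ := isHomogeneous_zero _ _ _
  hom₂ := isHomogeneous_zero _ _ _
  hom₃ := isHomogeneous_zero _ _ _
  hom₄ := isHomogeneous_zero _ _ _
  hom₆ := sext_hom h

theorem eqn_surf (h : K) : (surf h).eqn = X 3 ^ 2 - (X 2 ^ 3 + (-X 0 ^ 6 +
    C 3 * X 0 ^ 4 * X 1 ^ 2 + C h * X 0 ^ 2 * X 1 ^ 4 + X 1 ^ 6)) := by
  simp [Sextic.eqn, surf, up, sext]

theorem isSmooth_surf (h : K) (h2 : (2 : K) ≠ 0) (h3 : (3 : K) ≠ 0) (e1 : h + 3 ≠ 0)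
    (e2 : 4 * h - 15 ≠ 0) : (surf h).IsSmooth := by
  rintro v ⟨hv, -⟩
  by_contra hcon
  push Not at hcon
  have d3 := hcon 3
  have d2 := hcon 2
  have d0 := hcon 0
  have d1 := hcon 1
  rw [eqn_surf] at d0 d1 d2 d3
  simp [pderiv_X, Derivation.leibniz, Derivation.leibniz_pow] at d0 d1 d2 d3
  have v2 : v 2 = 0 := d2.resolve_left h3
  have v3 : v 3 = 0 := d3.resolve_left h2
  have key : v 0 = 0 ∧ v 1 = 0 := by
    have a0 : 2 * (v 0 * (3 * v 0 ^ 4 - 6 * v 0 ^ 2 * v 1 ^ 2 - h * v 1 ^ 4)) = 0 := by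
      linear_combination d0
    have a1 : 2 * (v 1 * (3 * v 1 ^ 4 + 2 * h * v 0 ^ 2 * v 1 ^ 2 + 3 * v 0 ^ 4)) = 0 := by
      linear_combination -d1
    have b0 := (mul_eq_zero.1 a0).resolve_left h2
    have b1 := (mul_eq_zero.1 a1).resolve_left h2
    by_cases z0 : v 0 = 0
    · refine ⟨z0, ?_⟩
      rw [z0] at b1
      have c1 : 3 * v 1 ^ 5 = 0 := by linear_combination b1
      exact pow_eq_zero_iff (by norm_num) |>.1 ((mul_eq_zero.1 c1).resolve_left h3)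
    · by_cases w0 : v 1 = 0
      · exfalso
        rw [w0] at b0
        have c1 : 3 * v 0 ^ 5 = 0 := by linear_combination b0
        exact z0 (pow_eq_zero_iff (by norm_num) |>.1 ((mul_eq_zero.1 c1).resolve_left h3))
      · exfalso
        have c0 := (mul_eq_zero.1 b0).resolve_left z0
        have c1 := (mul_eq_zero.1 b1).resolve_left w0
        have e3 : (h + 3) * (v 1 ^ 2 * (v 1 ^ 2 + 2 * v 0 ^ 2)) = 0 := by
          linear_combination c1 - c0
        have e4 := (mul_eq_zero.1 e3).resolve_left e1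
        have e5 := (mul_eq_zero.1 e4).resolve_left (pow_ne_zero 2 w0)
        have e6 : (4 * h - 15) * (v 0 ^ 4) = 0 := by
          linear_combination (-1 : K) * c0 - (6 * v 0 ^ 2 + h * v 1 ^ 2 - 2 * h * v 0 ^ 2) * e5
        exact (pow_ne_zero 4 z0) ((mul_eq_zero.1 e6).resolve_left e2)
  apply hv
  funext i
  fin_cases i
  · exact key.1
  · exact key.2
  · exact v2
  · exact v3

end Q53.DP
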